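import Mathlib
import Pool.Agent.H59.L.S8.Y506.RG.Stm
import Pool.Agent.H59.L.S8.Y758.FF.Var

/-!
# Project RG: Efron-Stein for products of different laws and the Poincare inequality for product
densities (S_VARR)
-/

set_option autoImplicit false

namespace Pool.Agent.Y445.RG

open MeasureTheory Set Filter Topology
open scoped ENNReal InnerProductSpace
open Pool.Agent.W695.KH (Eu)
open Pool.Agent.Y506.RG
open Pool.Agent.Y782.SA.ES (int_bdd int_sq var_split norm_int_sq var_le)

/-! ### Efron-Stein -/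

theorem es_fin (n : ℕ) : ∀ (ν : Fin n → Measure ℝ) [∀ i, IsProbabilityMeasure (ν i)],
    ∀ F : (Fin n → ℝ) → ℂ, Continuous F → (∃ C : ℝ, ∀ V, ‖F V‖ ≤ C) →
    ∫ V, ‖F V - ∫ U, F U ∂(Measure.pi ν)‖ ^ 2 ∂(Measure.pi ν) ≤
      ∑ y, ∫ V, ‖F V - F (Function.update V y 0)‖ ^ 2 ∂(Measure.pi ν) := by
  induction n with
  | zero =>
    intro ν _ F _ _
    have h1 : ∀ U : Fin 0 → ℝ, F U = F default := fun U => by rw [Subsingleton.elim U default]
    simp [h1]
  | succ n ih =>
    intro ν hν F hF hC
    obtain ⟨C, hC⟩ := hC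
    set μ : Measure ℝ := ν 0 with hμ
    set P : Measure (Fin n → ℝ) := Measure.pi fun j => ν j.succ with hP
    have hmp := (measurePreserving_piFinSuccAbove (n := n) (α := fun _ => ℝ) ν 0)
    have hsuc : (fun j : Fin n => ν ((0 : Fin (n + 1)).succAbove j)) = fun j => ν j.succ := by
      funext j
      rw [Fin.zero_succAbove]
    rw [hsuc] at hmp
    have hmps := hmp.symm
    have key : ∀ {E : Type} [NormedAddCommGroup E] [NormedSpace ℝ E] (G : (Fin (n+1) → ℝ) → E),
        ∫ V, G V ∂(Measure.pi ν) = ∫ z, G (Fin.cons z.1 z.2) ∂(μ.prod P) := by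
      intro E _ _ G
      have h := hmps.integral_comp (MeasurableEquiv.measurableEmbedding _) G
      rw [← h]
      refine integral_congr_ae (Filter.Eventually.of_forall fun z => ?_)
      change G (Fin.insertNth 0 z.1 z.2) = G (Fin.cons z.1 z.2)
      rw [Fin.insertNth_zero']
    have hcons : Continuous fun z : ℝ × (Fin n → ℝ) => (Fin.cons z.1 z.2 : Fin (n+1) → ℝ) := by
      refine continuous_pi fun i => ?_
      refine Fin.cases ?_ (fun j => ?_) i
      · simpa using continuous_fst
      · simp only [Fin.cons_succ]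
        exact (continuous_apply j).comp continuous_snd
    have hf : Continuous fun z : ℝ × (Fin n → ℝ) => F (Fin.cons z.1 z.2) := hF.comp hcons
    have hfx : ∀ x : ℝ, Continuous fun W : Fin n → ℝ => F (Fin.cons x W) := fun x =>
      hf.comp (Continuous.prodMk continuous_const continuous_id)
    have hb : ∀ z : ℝ × (Fin n → ℝ), ‖F (Fin.cons z.1 z.2)‖ ≤ C := fun z => hC _
    set G : ℝ → ℂ := fun x => ∫ W, F (Fin.cons x W) ∂P with hG
    have hfm : AEStronglyMeasurable (fun z : ℝ × (Fin n → ℝ) => F (Fin.cons z.1 z.2)) (μ.prod P) :=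
      hf.aestronglyMeasurable
    have hGm : AEStronglyMeasurable G μ := hfm.integral_prod_right'
    have hGb : ∀ x, ‖G x‖ ≤ C := by
      intro x
      refine (norm_integral_le_of_norm_le_const (Filter.Eventually.of_forall fun W => hC _)).trans ?_
      simp
    set a := ∫ U, F U ∂(Measure.pi ν) with ha
    have hfi : Integrable (fun z : ℝ × (Fin n → ℝ) => F (Fin.cons z.1 z.2)) (μ.prod P) :=
      int_bdd _ _ hfm C hb
    have haG : a = ∫ x, G x ∂μ := by
      rw [ha, key F, integral_prod _ hfi]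
    -- decomposition
    have hb2 : ∀ z : ℝ × (Fin n → ℝ), ‖F (Fin.cons z.1 z.2) - a‖ ≤ C + ‖a‖ := fun z =>
      (norm_sub_le _ _).trans (add_le_add_left (hb z) _)
    have i1 : Integrable (fun z : ℝ × (Fin n → ℝ) => ‖F (Fin.cons z.1 z.2) - a‖ ^ 2) (μ.prod P) :=
      int_sq _ _ (hfm.sub aestronglyMeasurable_const) _ hb2
    have e1 : ∫ V, ‖F V - a‖ ^ 2 ∂(Measure.pi ν) =
        ∫ x, ((∫ W, ‖F (Fin.cons x W) - G x‖ ^ 2 ∂P) + ‖G x - a‖ ^ 2) ∂μ := by
      rw [key fun V => ‖F V - a‖ ^ 2, integral_prod _ i1]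
      refine integral_congr_ae (Filter.Eventually.of_forall fun x => ?_)
      exact var_split P (fun W => F (Fin.cons x W)) (hfx x).aestronglyMeasurable C (fun W => hC _) a
    have i2 : Integrable (fun x => ‖G x - a‖ ^ 2) μ :=
      int_sq _ _ (hGm.sub aestronglyMeasurable_const) (C + ‖a‖)
        fun x => (norm_sub_le _ _).trans (add_le_add_left (hGb x) _)
    have hFG : AEStronglyMeasurable
        (fun z : ℝ × (Fin n → ℝ) => F (Fin.cons z.1 z.2) - G z.1) (μ.prod P) :=
      hfm.sub hGm.comp_fst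
    have i3' : Integrable (fun z : ℝ × (Fin n → ℝ) => ‖F (Fin.cons z.1 z.2) - G z.1‖ ^ 2)
        (μ.prod P) := int_sq _ _ hFG (C + C) fun z =>
          (norm_sub_le _ _).trans (add_le_add (hb z) (hGb z.1))
    have i3 : Integrable (fun x => ∫ W, ‖F (Fin.cons x W) - G x‖ ^ 2 ∂P) μ :=
      i3'.integral_prod_left
    rw [e1, integral_add i3 i2, Fin.sum_univ_succ, add_comm]
    refine add_le_add ?_ ?_
    · -- the first coordinate
      rw [key fun V => ‖F V - F (Function.update V 0 0)‖ ^ 2]
      have hup : ∀ z : ℝ × (Fin n → ℝ),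
          Function.update (Fin.cons z.1 z.2 : Fin (n+1) → ℝ) 0 0 = Fin.cons 0 z.2 := fun z => by
        rw [Fin.update_cons_zero]
      simp only [hup]
      have hf0 : Continuous fun z : ℝ × (Fin n → ℝ) => F (Fin.cons 0 z.2) :=
        (hfx 0).comp continuous_snd
      have i4 : Integrable (fun z : ℝ × (Fin n → ℝ) =>
          ‖F (Fin.cons z.1 z.2) - F (Fin.cons 0 z.2)‖ ^ 2) (μ.prod P) :=
        int_sq _ _ (hfm.sub hf0.aestronglyMeasurable) (C + C) fun z =>
          (norm_sub_le _ _).trans (add_le_add (hb z) (hC _))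
      rw [integral_prod _ i4]
      have s1 : ∫ x, ‖G x - a‖ ^ 2 ∂μ ≤ ∫ x, ‖G x - G 0‖ ^ 2 ∂μ := by
        rw [haG]; exact var_le μ G hGm C hGb (G 0)
      refine s1.trans ?_
      refine integral_mono (int_sq _ _ (hGm.sub aestronglyMeasurable_const) (C + C) fun x =>
        (norm_sub_le _ _).trans (add_le_add (hGb x) (hGb 0))) i4.integral_prod_left fun x => ?_
      have hd : G x - G 0 = ∫ W, (F (Fin.cons x W) - F (Fin.cons 0 W)) ∂P := by
        rw [integral_sub]
        · exact int_bdd P _ (hfx x).aestronglyMeasurable C fun W => hC _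
        · exact int_bdd P _ (hfx 0).aestronglyMeasurable C fun W => hC _
      simp only [hd]
      exact norm_int_sq P _ ((hfx x).sub (hfx 0)).aestronglyMeasurable (C + C) fun W =>
        (norm_sub_le _ _).trans (add_le_add (hC _) (hC _))
    · have i5 : ∀ j : Fin n, Integrable (fun z : ℝ × (Fin n → ℝ) =>
          ‖F (Fin.cons z.1 z.2) - F (Fin.cons z.1 (Function.update z.2 j 0))‖ ^ 2) (μ.prod P) := by
        intro j
        have hc : Continuous fun z : ℝ × (Fin n → ℝ) => F (Fin.cons z.1 (Function.update z.2 j 0)) :=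
          hf.comp (Continuous.prodMk continuous_fst (continuous_snd.update j continuous_const))
        exact int_sq _ _ (hfm.sub hc.aestronglyMeasurable) (C + C) fun z =>
          (norm_sub_le _ _).trans (add_le_add (hC _) (hC _))
      have e5 : ∀ j : Fin n, ∫ V, ‖F V - F (Function.update V j.succ 0)‖ ^ 2
          ∂(Measure.pi ν) = ∫ x, (∫ W, ‖F (Fin.cons x W) -
            F (Fin.cons x (Function.update W j 0))‖ ^ 2 ∂P) ∂μ := by
        intro j
        rw [key fun V => ‖F V - F (Function.update V j.succ 0)‖ ^ 2]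
        have hup : ∀ z : ℝ × (Fin n → ℝ),
            Function.update (Fin.cons z.1 z.2 : Fin (n+1) → ℝ) j.succ 0 =
              Fin.cons z.1 (Function.update z.2 j 0) := fun z => by
          rw [Fin.cons_update]
        simp only [hup]
        rw [integral_prod _ (i5 j)]
      simp only [e5]
      rw [← integral_finsetSum _ fun j _ => (i5 j).integral_prod_left]
      refine integral_mono i3 (integrable_finsetSum _ fun j _ => (i5 j).integral_prod_left)
        fun x => ?_
      exact ih (fun j => ν j.succ) (fun W => F (Fin.cons x W)) (hfx x) ⟨C, fun W => hC _⟩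

theorem es (m : Type) [Fintype m] [DecidableEq m] (ν : m → Measure ℝ)
    [∀ i, IsProbabilityMeasure (ν i)] (F : (m → ℝ) → ℂ) (hF : Continuous F) (hC : ∃ C : ℝ, ∀ V, ‖F V‖ ≤ C) :
    ∫ V, ‖F V - ∫ U, F U ∂(Measure.pi ν)‖ ^ 2 ∂(Measure.pi ν) ≤
      ∑ y, ∫ V, ‖F V - F (Function.update V y 0)‖ ^ 2 ∂(Measure.pi ν) := by
  obtain ⟨C, hC⟩ := hC
  set e : Fin (Fintype.card m) ≃ m := (Fintype.equivFin m).symm with he
  have hmp := measurePreserving_piCongrLeft (α := fun _ : m => ℝ) ν e
  set T := MeasurableEquiv.piCongrLeft (fun _ : m => ℝ) e with hT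
  have hTv : ∀ (V : Fin (Fintype.card m) → ℝ), T V = fun y => V (e.symm y) := by
    intro V
    funext y
    have := MeasurableEquiv.piCongrLeft_apply_apply e (β := fun _ : m => ℝ) V (e.symm y)
    rw [Equiv.apply_symm_apply] at this
    exact this
  have key : ∀ {E : Type} [NormedAddCommGroup E] [NormedSpace ℝ E] (G : (m → ℝ) → E),
      ∫ V, G V ∂(Measure.pi ν) =
        ∫ V : Fin (Fintype.card m) → ℝ, G (fun y => V (e.symm y)) ∂(Measure.pi fun i => ν (e i)) := by
    intro E _ _ G
    have h := hmp.integral_comp (MeasurableEquiv.measurableEmbedding _) G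
    rw [← h]
    refine integral_congr_ae (Filter.Eventually.of_forall fun V => ?_)
    simp only
    rw [← hTv V]
  have hFc : Continuous fun V : Fin (Fintype.card m) → ℝ => F fun y => V (e.symm y) :=
    hF.comp (continuous_pi fun y => continuous_apply _)
  have h := es_fin (Fintype.card m) (fun i => ν (e i)) (fun V => F fun y => V (e.symm y)) hFc ⟨C, fun V => hC _⟩
  rw [key fun V => ‖F V - ∫ U, F U ∂(Measure.pi ν)‖ ^ 2, key F]
  refine h.trans (le_of_eq ?_)
  rw [← Equiv.sum_comp e]
  refine Finset.sum_congr rfl fun j _ => ?_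
  rw [key fun V => ‖F V - F (Function.update V (e j) 0)‖ ^ 2]
  refine integral_congr_ae (Filter.Eventually.of_forall fun V => ?_)
  simp only
  congr 4
  funext y
  by_cases hy : y = e j
  · subst hy; simp
  · rw [Function.update_of_ne hy, Function.update_of_ne]
    intro h'; apply hy; rw [← h']; simp


/-! ### one-dimensional densities -/

/-- the law with density `f` -/
noncomputable def mu (f : ℝ → ℝ) : Measure ℝ := volume.withDensity fun s => ENNReal.ofReal (f s)

theorem mu_prob {f : ℝ → ℝ} (hf : ND f) : IsProbabilityMeasure (mu f) := by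
  constructor
  rw [mu, withDensity_apply _ MeasurableSet.univ, Measure.restrict_univ]
  rw [← ofReal_integral_eq_lintegral_ofReal hf.int0 (Eventually.of_forall fun s => (hf.pos s).le),
    hf.mass, ENNReal.ofReal_one]

theorem f_meas {f : ℝ → ℝ} (hf : ND f) : Measurable fun s => ENNReal.ofReal (f s) :=
  hf.cont.measurable.ennreal_ofReal

theorem int_mu {f : ℝ → ℝ} (hf : ND f) (g : ℝ → ℝ) : ∫ s, g s ∂(mu f) = ∫ s, f s * g s := by
  have h1 : ∀ᵐ s : ℝ, ENNReal.ofReal (f s) < ∞ := Eventually.of_forall fun s =>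
    ENNReal.ofReal_lt_top
  rw [mu, integral_withDensity_eq_integral_toReal_smul (f_meas hf) h1]
  refine integral_congr_ae (Eventually.of_forall fun s => ?_)
  show (ENNReal.ofReal (f s)).toReal • g s = f s * g s
  rw [ENNReal.toReal_ofReal (hf.pos s).le, smul_eq_mul]

theorem half {f : ℝ → ℝ} (hfc : Continuous f) (hf0 : ∀ s, 0 ≤ f s) (hfi : Integrable f) {C : ℝ}
    (hC : 1 ≤ C) (hS : ∀ t, 0 ≤ t → ∫ s in Ioi t, f s ≤ C * f t)
    (h h' : ℝ → ℝ) (hd : ∀ s, HasDerivAt h (h' s) s) (hc : Continuous h')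
    (hb : ∀ s, |h s| ≤ 1) (B : ℝ) (hB : ∀ s, |h' s| ≤ B) :
    ∫ s in Ioi (0 : ℝ), f s * (h s - h 0) ^ 2 ≤
      4 * C ^ 2 * ∫ s in Ioi (0 : ℝ), f s * h' s ^ 2 := by
  have hcon : Continuous h := continuous_iff_continuousAt.2 fun s => (hd s).continuousAt
  have hB0 : 0 ≤ B := (abs_nonneg _).trans (hB 0)
  have hC0 : 0 ≤ C := zero_le_one.trans hC
  have ion : ∀ {g : ℝ → ℝ}, Continuous g → ∀ {D : ℝ}, (∀ s, |g s| ≤ D) →
      Integrable (fun s => f s * g s) := fun {g} hg {D} hD =>
    Integrable.mul_bdd (c := D) hfi hg.aestronglyMeasurable (Eventually.of_forall fun s => by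
      rw [Real.norm_eq_abs]
      exact hD s)
  have hdif : ∀ s, |h s - h 0| ≤ 2 := fun s => by
    have h1 := abs_sub (h s) (h 0)
    have h2 := hb s
    have h3 := hb 0
    linarith
  have c1 : Continuous fun s => (h s - h 0) ^ 2 := (hcon.sub continuous_const).pow 2
  have c2 : Continuous fun s => (h s - h 0) * h' s := (hcon.sub continuous_const).mul hc
  have c3 : Continuous fun s => h' s ^ 2 := hc.pow 2
  have b1 : ∀ s, |(h s - h 0) ^ 2| ≤ 4 := fun s => by
    rw [abs_pow]
    have := pow_le_pow_left₀ (abs_nonneg _) (hdif s) 2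
    linarith
  have b2 : ∀ s, |(h s - h 0) * h' s| ≤ 2 * B := fun s => by
    rw [abs_mul]
    exact mul_le_mul (hdif s) (hB s) (abs_nonneg _) (by norm_num)
  have b3 : ∀ s, |h' s ^ 2| ≤ B ^ 2 := fun s => by
    rw [abs_pow]
    exact pow_le_pow_left₀ (abs_nonneg _) (hB s) 2
  have i1 := (ion c1 b1).integrableOn (s := Ioi (0 : ℝ))
  have i3 := (ion c3 b3).integrableOn (s := Ioi (0 : ℝ))
  -- the tail
  set S : ℝ → ℝ := fun t => ∫ s in Ioi t, f s with hSd
  have hSeq : ∀ t, S t = (∫ s, f s) - ∫ s in Iic t, f s := by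
    intro t
    have := intervalIntegral.integral_Iic_add_Ioi (μ := volume) (b := t) (f := f)
      hfi.integrableOn hfi.integrableOn
    rw [hSd]
    simp only
    linarith
  have hSder : ∀ t, HasDerivAt S (-f t) t := by
    intro t
    have h1 : ∀ u, ∫ s in Iic u, f s = (∫ s in Iic t, f s) + ∫ s in t..u, f s := by
      intro u
      have := intervalIntegral.integral_Iic_sub_Iic (μ := volume) (a := t) (b := u) (f := f)
        hfi.integrableOn hfi.integrableOn
      linarith
    have h2 : HasDerivAt (fun u => ∫ s in t..u, f s) (f t) t :=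
      intervalIntegral.integral_hasDerivAt_right (hfi.intervalIntegrable)
        hfc.aestronglyMeasurable.stronglyMeasurableAtFilter hfc.continuousAt
    have h3 : S = fun u => ((∫ s, f s) - ∫ s in Iic t, f s) - ∫ s in t..u, f s := by
      funext u
      rw [hSeq, h1 u]
      ring
    rw [h3]
    exact h2.const_sub _
  have hScont : Continuous S := continuous_iff_continuousAt.2 fun s => (hSder s).continuousAt
  have hS0 : ∀ t, 0 ≤ S t := fun t => setIntegral_nonneg measurableSet_Ioi fun s _ => hf0 s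
  have hSlim : Tendsto S atTop (𝓝 0) := by
    have h1 : Tendsto (fun t => ∫ s in Iic t, f s) atTop (𝓝 (∫ s, f s)) := by
      have h2 := (hfi.integrableOn (s := Ioi (0 : ℝ)))
      have h3 := intervalIntegral_tendsto_integral_Ioi (0 : ℝ) h2 tendsto_id
      have h4 : (fun t => ∫ s in Iic t, f s) =
          fun t => (∫ s in Iic (0 : ℝ), f s) + ∫ s in (0 : ℝ)..t, f s := by
        funext u
        have := intervalIntegral.integral_Iic_sub_Iic (μ := volume) (a := 0) (b := u) (f := f)
          hfi.integrableOn hfi.integrableOn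
        linarith
      have h5 := intervalIntegral.integral_Iic_add_Ioi (μ := volume) (b := (0 : ℝ)) (f := f)
        hfi.integrableOn hfi.integrableOn
      rw [h4, ← h5]
      exact h3.const_add _
    have h2 : S = fun t => (∫ s, f s) - ∫ s in Iic t, f s := funext hSeq
    rw [h2]
    have h3 := h1.const_sub (∫ s, f s)
    rwa [sub_self] at h3
  have i2 : IntegrableOn (fun s => S s * ((h s - h 0) * h' s)) (Ioi 0) := by
    have h1 : IntegrableOn (fun s => C * f s * (2 * B)) (Ioi (0 : ℝ)) :=
      ((hfi.const_mul C).mul_const (2 * B)).integrableOn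
    refine Integrable.mono' h1 (hScont.mul c2).aestronglyMeasurable ?_
    rw [ae_restrict_iff' measurableSet_Ioi]
    refine Eventually.of_forall fun s hs => ?_
    rw [norm_mul, Real.norm_eq_abs, Real.norm_eq_abs, abs_of_nonneg (hS0 s)]
    exact mul_le_mul (hS s (le_of_lt hs)) (b2 s) (abs_nonneg _) (mul_nonneg hC0 (hf0 s))
  have key := integral_Ioi_of_hasDerivAt_of_tendsto' (a := (0 : ℝ))
    (f := fun s => -(S s * (h s - h 0) ^ 2))
    (f' := fun s => f s * (h s - h 0) ^ 2 - 2 * (S s * ((h s - h 0) * h' s)))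
    (m := 0) (fun s _ => by
      have e2 : HasDerivAt (fun s => (h s - h 0) ^ 2) (2 * (h s - h 0) * h' s) s := by
        have h3 : HasDerivAt (fun s => (h s - h 0) ^ 2)
            (((2 : ℕ) : ℝ) * (h s - h 0) ^ (2 - 1) * h' s) s :=
          ((hd s).sub_const (h 0)).pow 2
        refine h3.congr_deriv ?_
        norm_num
      have e3 : HasDerivAt (fun s : ℝ => -(S s * (h s - h 0) ^ 2))
          (-(-f s * (h s - h 0) ^ 2 + S s * (2 * (h s - h 0) * h' s))) s :=
        ((hSder s).mul e2).neg
      refine e3.congr_deriv ?_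
      ring) (i1.sub (i2.const_mul 2)) (by
      have h1 : Tendsto (fun s : ℝ => S s * 4) atTop (𝓝 (0 * 4)) := hSlim.mul_const 4
      rw [zero_mul] at h1
      refine squeeze_zero_norm (fun s => ?_) h1
      rw [norm_neg, norm_mul, Real.norm_eq_abs, Real.norm_eq_abs, abs_of_nonneg (hS0 s)]
      exact mul_le_mul_of_nonneg_left (b1 s) (hS0 s))
  rw [integral_sub i1 (i2.const_mul 2), integral_const_mul] at key
  simp only [sub_self, ne_eq, OfNat.ofNat_ne_zero, not_false_eq_true, zero_pow, mul_zero,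
    neg_zero] at key
  have h1 : 2 * ∫ s in Ioi (0 : ℝ), S s * ((h s - h 0) * h' s) ≤
      (1 / 2) * (∫ s in Ioi (0 : ℝ), f s * (h s - h 0) ^ 2) +
        2 * C ^ 2 * ∫ s in Ioi (0 : ℝ), f s * h' s ^ 2 := by
    rw [← integral_const_mul, ← integral_const_mul, ← integral_const_mul,
      ← integral_add (i1.const_mul _) (i3.const_mul _)]
    refine setIntegral_mono_on (i2.const_mul 2) ((i1.const_mul _).add (i3.const_mul _))
      measurableSet_Ioi fun s hs => ?_
    have hs1 := hS s (le_of_lt hs)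
    have hs0 := hS0 s
    have h2 := hf0 s
    have h3 : S s * ((h s - h 0) * h' s) ≤ C * f s * |(h s - h 0) * h' s| :=
      (mul_le_mul_of_nonneg_left (le_abs_self _) hs0).trans
        (mul_le_mul_of_nonneg_right hs1 (abs_nonneg _))
    have h4 : 0 ≤ f s * (|h s - h 0| - 2 * C * |h' s|) ^ 2 := mul_nonneg h2 (sq_nonneg _)
    rw [abs_mul] at h3
    have h5 : f s * (|h s - h 0| - 2 * C * |h' s|) ^ 2 = f s * (h s - h 0) ^ 2 -
        4 * (C * f s * (|h s - h 0| * |h' s|)) + 4 * C ^ 2 * (f s * h' s ^ 2) := by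
      rw [← sq_abs (h s - h 0), ← sq_abs (h' s)]
      ring
    show 2 * (S s * ((h s - h 0) * h' s)) ≤
      1 / 2 * (f s * (h s - h 0) ^ 2) + 2 * C ^ 2 * (f s * h' s ^ 2)
    rw [h5] at h4
    linarith
  linarith

/-- the Poincare inequality in dimension one -/
theorem hardy {f : ℝ → ℝ} {C : ℝ} (hf : ND f) (hO : OB C f) (h h' : ℝ → ℝ)
    (hd : ∀ s, HasDerivAt h (h' s) s) (hc : Continuous h')
    (hb : ∀ s, |h s| ≤ 1) (B : ℝ) (hB : ∀ s, |h' s| ≤ B) :
    ∫ s, (h s - h 0) ^ 2 ∂(mu f) ≤ 4 * C ^ 2 * ∫ s, h' s ^ 2 ∂(mu f) := by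
  have hcon : Continuous h := continuous_iff_continuousAt.2 fun s => (hd s).continuousAt
  have ion : ∀ {g : ℝ → ℝ}, Continuous g → ∀ {D : ℝ}, (∀ s, |g s| ≤ D) →
      Integrable (fun s => f s * g s) := fun {g} hg {D} hD =>
    Integrable.mul_bdd (c := D) hf.int0 hg.aestronglyMeasurable (Eventually.of_forall fun s => by
      rw [Real.norm_eq_abs]
      exact hD s)
  have hdif : ∀ s, |h s - h 0| ≤ 2 := fun s => by
    have h1 := abs_sub (h s) (h 0)
    have h2 := hb s
    have h3 := hb 0
    linarith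
  have c1 : Continuous fun s => (h s - h 0) ^ 2 := (hcon.sub continuous_const).pow 2
  have c3 : Continuous fun s => h' s ^ 2 := hc.pow 2
  have i1 := ion c1 (D := 4) fun s => by
    rw [abs_pow]
    have := pow_le_pow_left₀ (abs_nonneg _) (hdif s) 2
    linarith
  have i3 := ion c3 (D := B ^ 2) fun s => by
    rw [abs_pow]
    exact pow_le_pow_left₀ (abs_nonneg _) (hB s) 2
  rw [int_mu hf, int_mu hf]
  have r := half hf.cont (fun s => (hf.pos s).le) hf.int0 hO.one_le hO.right h h' hd hc hb B hB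
  have l := half (f := fun s => f (-s)) (hf.cont.comp continuous_neg) (fun s => (hf.pos _).le)
    (hf.int0.comp_neg) hO.one_le (fun t ht => by
      rw [integral_comp_neg_Ioi]
      exact hO.left (-t) (by linarith)) (fun s => h (-s)) (fun s => -h' (-s))
    (fun s => by
      have h1 := (hd (-s)).comp s (hasDerivAt_neg s)
      refine h1.congr_deriv ?_
      ring) (hc.comp continuous_neg).neg (fun s => hb _) B (fun s => by
      rw [abs_neg]
      exact hB _)
  simp only [neg_zero, neg_sq] at l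
  rw [integral_comp_neg_Ioi (0 : ℝ) (fun s => f s * (h s - h 0) ^ 2),
    integral_comp_neg_Ioi (0 : ℝ) (fun s => f s * h' s ^ 2), neg_zero] at l
  rw [← intervalIntegral.integral_Iic_add_Ioi (b := (0 : ℝ)) i1.integrableOn i1.integrableOn,
    ← intervalIntegral.integral_Iic_add_Ioi (b := (0 : ℝ)) i3.integrableOn i3.integrableOn]
  linarith

/-! ### the product -/

section prod

variable {ι : Type} [Fintype ι] {f : ι → ℝ → ℝ}

theorem pi_mu (hf : ∀ i, ND (f i)) : (Measure.pi fun i : ι => mu (f i)) =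
    volume.withDensity (fun x : ι → ℝ => ∏ i, ENNReal.ofReal (f i (x i))) := by
  classical
  have : ∀ i, IsProbabilityMeasure (mu (f i)) := fun i => mu_prob (hf i)
  refine Measure.pi_eq fun s hs => ?_
  have hS : MeasurableSet (Set.pi Set.univ s) := MeasurableSet.univ_pi hs
  rw [withDensity_apply _ hS, ← lintegral_indicator hS]
  set g : (i : ι) → ℝ → ℝ := fun i => (s i).indicator (f i) with hg
  have hgi : ∀ i, Integrable (g i) := fun i => (hf i).int0.indicator (hs i)
  have hg0 : ∀ i z, 0 ≤ g i z := by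
    intro i z
    simp only [hg]
    exact Set.indicator_nonneg (fun z _ => ((hf i).pos z).le) z
  have h1 : ∀ x : ι → ℝ, (Set.pi Set.univ s).indicator
      (fun x : ι → ℝ => ∏ i, ENNReal.ofReal (f i (x i))) x
      = ENNReal.ofReal (∏ i, g i (x i)) := by
    intro x
    by_cases hx : x ∈ Set.pi Set.univ s
    · rw [Set.indicator_of_mem hx, ENNReal.ofReal_prod_of_nonneg fun i _ => hg0 i _]
      refine Finset.prod_congr rfl fun i _ => ?_
      simp only [hg]
      rw [Set.indicator_of_mem (hx i (Set.mem_univ i))]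
    · rw [Set.indicator_of_notMem hx]
      have : ∃ i, x i ∉ s i := by
        by_contra hc
        push Not at hc
        exact hx fun i _ => hc i
      obtain ⟨i, hi⟩ := this
      rw [Finset.prod_eq_zero (Finset.mem_univ i) (by simp only [hg]; rw [Set.indicator_of_notMem hi]),
        ENNReal.ofReal_zero]
  simp_rw [h1]
  have hint : Integrable (fun x : ι → ℝ => ∏ i, g i (x i)) := by
    have h2 := Integrable.fintype_prod_dep (f := g) (μ := fun _ => volume) hgi
    rw [volume_pi]
    exact h2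
  rw [← ofReal_integral_eq_lintegral_ofReal hint
    (Filter.Eventually.of_forall fun x => Finset.prod_nonneg fun i _ => hg0 i (x i)),
    integral_fintype_prod_volume_eq_prod, ENNReal.ofReal_prod_of_nonneg
      (fun i _ => integral_nonneg (hg0 i))]
  refine Finset.prod_congr rfl fun i _ => ?_
  rw [ofReal_integral_eq_lintegral_ofReal (hgi i) (Filter.Eventually.of_forall (hg0 i)), mu,
    withDensity_apply _ (hs i), ← lintegral_indicator (hs i)]
  refine lintegral_congr fun z => ?_
  simp only [hg]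
  by_cases hz : z ∈ s i
  · rw [Set.indicator_of_mem hz, Set.indicator_of_mem hz]
  · rw [Set.indicator_of_notMem hz, Set.indicator_of_notMem hz, ENNReal.ofReal_zero]

/-- integrals over `Eu ι` with the density `rr f` -/
theorem lint_rr (hf : ∀ i, ND (f i)) (g : (ι → ℝ) → ℝ≥0∞) (hg : Measurable g) :
    ∫⁻ s : Eu ι, g s.ofLp * rr f s = ∫⁻ V, g V ∂(Measure.pi fun i : ι => mu (f i)) := by
  have hr : Measurable fun x : ι → ℝ => ∏ i, ENNReal.ofReal (f i (x i)) :=
    Finset.measurable_fun_prod _ fun i _ => (f_meas (hf i)).comp (measurable_pi_apply i)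
  rw [pi_mu hf, lintegral_withDensity_eq_lintegral_mul _ hr hg]
  have h := (PiLp.volume_preserving_ofLp ι).lintegral_comp (hr.mul hg)
  rw [← h]
  refine lintegral_congr fun s => ?_
  show g s.ofLp * rr f s = (∏ i, ENNReal.ofReal (f i (s.ofLp i))) * g s.ofLp
  rw [mul_comm]
  rfl

/-- Fubini for one coordinate -/
theorem marg [DecidableEq ι] (ν : ι → Measure ℝ) [∀ i, IsProbabilityMeasure (ν i)] (i : ι)
    (F : (ι → ℝ) → ℝ≥0∞) (hF : Measurable F) :
    ∫⁻ V, F V ∂(Measure.pi ν) =
      ∫⁻ V, (∫⁻ s, F (Function.update V i s) ∂(ν i)) ∂(Measure.pi ν) := by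
  have hg : Measurable fun V : ι → ℝ => ∫⁻ s, F (Function.update V i s) ∂(ν i) := by
    have h1 : Measurable fun p : (ι → ℝ) × ℝ => F (Function.update p.1 i p.2) :=
      hF.comp measurable_update'
    exact h1.lintegral_prod_right'
  rw [lintegral_eq_lmarginal_univ (0 : ι → ℝ), lintegral_eq_lmarginal_univ (0 : ι → ℝ),
    lmarginal_erase' _ hF (Finset.mem_univ i), lmarginal_erase' _ hg (Finset.mem_univ i)]
  congr 2
  funext V
  have h1 : ∀ x, ∫⁻ s, F (Function.update (Function.update V i x) i s) ∂(ν i) =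
      ∫⁻ s, F (Function.update V i s) ∂(ν i) := by
    intro x
    refine lintegral_congr fun s => ?_
    rw [Function.update_idem]
  simp only [h1]
  rw [lintegral_const, measure_univ, mul_one]

end prod

theorem varr : S_VARR := by
  classical
  intro C
  refine ⟨max 1 (4 * C ^ 2), le_max_left _ _, ?_⟩
  intro ι _ g hND hOB f l hf hb hl hfl
  have hprob : ∀ i, IsProbabilityMeasure (mu (g i)) := fun i => mu_prob (hND i)
  set P : Measure (ι → ℝ) := Measure.pi fun i : ι => mu (g i) with hP
  have hcont : Continuous f := hf.continuous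
  have hlp : Continuous fun V : ι → ℝ => (WithLp.toLp 2 V : Eu ι) :=
    PiLp.continuous_toLp 2 _
  have hF : Continuous fun V : ι → ℝ => f (WithLp.toLp 2 V) := hcont.comp hlp
  -- the partial derivatives
  have hdf : Continuous fun V : ι → ℝ => fderiv ℝ f (WithLp.toLp 2 V) :=
    (hf.continuous_fderiv (by norm_num)).comp hlp
  have hdi : ∀ i, Continuous fun V : ι → ℝ =>
      fderiv ℝ f (WithLp.toLp 2 V) (EuclideanSpace.single i 1) := fun i =>
    hdf.clm_apply continuous_const
  have hder : ∀ (V : ι → ℝ) (i : ι) (s : ℝ), HasDerivAt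
      (fun s => f (WithLp.toLp 2 (Function.update V i s)))
      (fderiv ℝ f (WithLp.toLp 2 (Function.update V i s)) (EuclideanSpace.single i 1)) s := by
    intro V i s
    have h1 : HasDerivAt (fun s : ℝ => Function.update V i s) (Pi.single i (1 : ℝ)) s :=
      hasDerivAt_update V i s
    have h2 : HasDerivAt (fun s : ℝ => (WithLp.toLp 2 (Function.update V i s) : Eu ι))
        (EuclideanSpace.single i (1 : ℝ)) s := by
      have h3 := ((PiLp.continuousLinearEquiv 2 ℝ (fun _ : ι => ℝ)).symm :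
        (ι → ℝ) →L[ℝ] Eu ι).hasFDerivAt.comp_hasDerivAt s h1
      exact h3
    exact ((hf.differentiable (by norm_num)) _).hasFDerivAt.comp_hasDerivAt s h2
  have hup : ∀ i : ι, Continuous fun p : (ι → ℝ) × ℝ => Function.update p.1 i p.2 := fun i =>
    continuous_fst.update i continuous_snd
  -- the mean
  obtain ⟨m, hm⟩ : ∃ m : ℝ, m = ∫ V, f (WithLp.toLp 2 V) ∂P := ⟨_, rfl⟩
  have hmc : ((m : ℝ) : ℂ) = ∫ V, ((f (WithLp.toLp 2 V) : ℝ) : ℂ) ∂P := by
    rw [hm]
    exact integral_ofReal.symm
  refine ⟨m, ?_, ?_⟩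
  · rw [hm, ← Real.norm_eq_abs]
    refine (norm_integral_le_of_norm_le_const (C := 1) (Eventually.of_forall fun V => ?_)).trans ?_
    · rw [Real.norm_eq_abs]
      exact hb _
    · simp
  have hmeas : Measurable fun V : ι → ℝ => ENNReal.ofReal ((f (WithLp.toLp 2 V) - m) ^ 2) :=
    ((hF.sub continuous_const).pow 2).measurable.ennreal_ofReal
  have e1 := lint_rr hND (fun V : ι → ℝ => ENNReal.ofReal ((f (WithLp.toLp 2 V) - m) ^ 2)) hmeas
  have e2 : ∫⁻ s : Eu ι, ENNReal.ofReal ((f s - m) ^ 2) * rr g s =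
      ∫⁻ V, ENNReal.ofReal ((f (WithLp.toLp 2 V) - m) ^ 2) ∂P := by
    rw [hP, ← e1]
  rw [e2]
  -- Efron-Stein
  have hes := es ι (fun i => mu (g i)) (fun V => ((f (WithLp.toLp 2 V) : ℝ) : ℂ))
    (Complex.continuous_ofReal.comp hF) ⟨1, fun V => by
      rw [Complex.norm_real, Real.norm_eq_abs]
      exact hb _⟩
  rw [← hP, ← hmc] at hes
  have hn : ∀ a b : ℝ, ‖(a : ℂ) - (b : ℂ)‖ ^ 2 = (a - b) ^ 2 := by
    intro a b
    rw [← Complex.ofReal_sub, Complex.norm_real, Real.norm_eq_abs, sq_abs]
  simp only [hn] at hes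
  have hbd : ∀ (a b : ℝ), |a| ≤ 1 → |b| ≤ 1 → ‖(a - b) ^ 2‖ ≤ 4 := by
    intro a b ha hb
    rw [norm_pow, Real.norm_eq_abs]
    have h1 : |a - b| ≤ 2 := (abs_sub a b).trans (by linarith)
    have := pow_le_pow_left₀ (abs_nonneg _) h1 2
    linarith
  have hm1 : |m| ≤ 1 := by
    rw [hm, ← Real.norm_eq_abs]
    refine (norm_integral_le_of_norm_le_const (C := 1) (Eventually.of_forall fun V => ?_)).trans ?_
    · rw [Real.norm_eq_abs]
      exact hb _
    · simp
  have j1 : Integrable (fun V => (f (WithLp.toLp 2 V) - m) ^ 2) P :=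
    Integrable.of_bound ((hF.sub continuous_const).pow 2).aestronglyMeasurable 4
      (Eventually.of_forall fun V => hbd _ _ (hb _) hm1)
  have hcu : ∀ i, Continuous fun V : ι → ℝ => f (WithLp.toLp 2 (Function.update V i 0)) := fun i =>
    hF.comp (continuous_id.update i continuous_const)
  have j2 : ∀ i, Integrable (fun V =>
      (f (WithLp.toLp 2 V) - f (WithLp.toLp 2 (Function.update V i 0))) ^ 2) P := fun i =>
    Integrable.of_bound ((hF.sub (hcu i)).pow 2).aestronglyMeasurable 4
      (Eventually.of_forall fun V => hbd _ _ (hb _) (hb _))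
  rw [← ofReal_integral_eq_lintegral_ofReal j1 (Eventually.of_forall fun V => sq_nonneg _)]
  refine (ENNReal.ofReal_le_ofReal hes).trans ?_
  rw [ENNReal.ofReal_sum_of_nonneg fun i _ => integral_nonneg fun V => sq_nonneg _]
  -- one coordinate
  have hone : ∀ i, ENNReal.ofReal (∫ V,
      (f (WithLp.toLp 2 V) - f (WithLp.toLp 2 (Function.update V i 0))) ^ 2 ∂P) ≤
      ∫⁻ V, ENNReal.ofReal (4 * C ^ 2 *
        fderiv ℝ f (WithLp.toLp 2 V) (EuclideanSpace.single i 1) ^ 2) ∂P := by
    intro i
    rw [ofReal_integral_eq_lintegral_ofReal (j2 i) (Eventually.of_forall fun V => sq_nonneg _)]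
    rw [hP, marg (fun i => mu (g i)) i (fun V => ENNReal.ofReal
        ((f (WithLp.toLp 2 V) - f (WithLp.toLp 2 (Function.update V i 0))) ^ 2))
        ((hF.sub (hcu i)).pow 2).measurable.ennreal_ofReal,
      marg (fun i => mu (g i)) i (fun V => ENNReal.ofReal (4 * C ^ 2 *
        fderiv ℝ f (WithLp.toLp 2 V) (EuclideanSpace.single i 1) ^ 2))
        (((hdi i).pow 2).const_mul (4 * C ^ 2)).measurable.ennreal_ofReal]
    refine lintegral_mono fun V => ?_
    simp only [Function.update_idem]
    have c0 : Continuous fun s : ℝ => Function.update V i s :=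
      (hup i).comp (Continuous.prodMk continuous_const continuous_id)
    have hcs : Continuous fun s : ℝ => f (WithLp.toLp 2 (Function.update V i s)) := hF.comp c0
    have hcd : Continuous fun s : ℝ =>
        fderiv ℝ f (WithLp.toLp 2 (Function.update V i s)) (EuclideanSpace.single i 1) :=
      (hdi i).comp c0
    have hdb : ∀ s : ℝ,
        |fderiv ℝ f (WithLp.toLp 2 (Function.update V i s)) (EuclideanSpace.single i 1)| ≤ l := by
      intro s
      have h1 := ContinuousLinearMap.le_opNorm
        (fderiv ℝ f (WithLp.toLp 2 (Function.update V i s))) (EuclideanSpace.single i (1 : ℝ))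
      rw [EuclideanSpace.norm_single, norm_one, mul_one, Real.norm_eq_abs] at h1
      exact h1.trans (hfl _)
    have hh := hardy (hND i) (hOB i) (fun s => f (WithLp.toLp 2 (Function.update V i s)))
      (fun s => fderiv ℝ f (WithLp.toLp 2 (Function.update V i s)) (EuclideanSpace.single i 1))
      (hder V i) hcd (fun s => hb _) l hdb
    rw [← integral_const_mul] at hh
    rw [← ofReal_integral_eq_lintegral_ofReal, ← ofReal_integral_eq_lintegral_ofReal]
    · exact ENNReal.ofReal_le_ofReal hh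
    · refine Integrable.of_bound ((hcd.pow 2).const_mul (4 * C ^ 2)).aestronglyMeasurable (4 * C ^ 2 * l ^ 2)
        (Eventually.of_forall fun s => ?_)
      rw [norm_mul, norm_pow, Real.norm_eq_abs, Real.norm_eq_abs,
        abs_of_nonneg (by positivity : (0 : ℝ) ≤ 4 * C ^ 2)]
      exact mul_le_mul_of_nonneg_left (pow_le_pow_left₀ (abs_nonneg _) (hdb s) 2) (by positivity)
    · exact Eventually.of_forall fun s => by positivity
    · exact Integrable.of_bound ((hcs.sub continuous_const).pow 2).aestronglyMeasurable 4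
        (Eventually.of_forall fun s => hbd _ _ (hb _) (hb _))
    · exact Eventually.of_forall fun s => sq_nonneg _
  refine (Finset.sum_le_sum fun i _ => hone i).trans ?_
  have hmi : ∀ i : ι, Measurable fun V : ι → ℝ => ENNReal.ofReal (4 * C ^ 2 *
        fderiv ℝ f (WithLp.toLp 2 V) (EuclideanSpace.single i 1) ^ 2) := fun i =>
    (((hdi i).pow 2).const_mul (4 * C ^ 2)).measurable.ennreal_ofReal
  rw [← lintegral_finsetSum _ fun i _ => hmi i]
  calc ∫⁻ V, ∑ i, ENNReal.ofReal (4 * C ^ 2 *
        fderiv ℝ f (WithLp.toLp 2 V) (EuclideanSpace.single i 1) ^ 2) ∂P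
      ≤ ∫⁻ _V, ENNReal.ofReal (4 * C ^ 2 * l ^ 2) ∂P := by
        refine lintegral_mono fun V => ?_
        rw [← ENNReal.ofReal_sum_of_nonneg fun i _ => by positivity]
        apply ENNReal.ofReal_le_ofReal
        rw [← Finset.mul_sum]
        refine mul_le_mul_of_nonneg_left ?_ (by positivity)
        exact (Pool.Agent.Y758.FF.sum_sq_le _).trans (pow_le_pow_left₀ (norm_nonneg _) (hfl _) 2)
    _ = ENNReal.ofReal (4 * C ^ 2 * l ^ 2) := by
        rw [lintegral_const, measure_univ, mul_one]
    _ ≤ ENNReal.ofReal (max 1 (4 * C ^ 2) * l ^ 2) :=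
        ENNReal.ofReal_le_ofReal (mul_le_mul_of_nonneg_right (le_max_right _ _) (sq_nonneg _))

end Pool.Agent.Y445.RG
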